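import Mathlib

set_option autoImplicit false

namespace Pool.Agent.H.MP_b3e27a_co

open Real

noncomputable def Mx (n : ℕ) : ℝ :=
  if n = 3 then 3 * √12
  else if n = 4 then √12 + √13 + 2 * √19
  else if n = 5 then √12 + 2 * √21 + 2 * √28
  else if n = 6 then √13 + √19 + 2 * √21 + √28 + √37
  else if n = 8 then √13 + 4 * √21 + 2 * √37 + √48
  else if n % 3 = 0 then (2 * n / 3) * √21 + (n / 3) * √48
  else if n % 3 = 1 then (2 * (n - 1) / 3) * √21 + 2 * √28 + ((n - 4) / 3) * √48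
  else ((2 * n - 1) / 3) * √21 + 3 * √37 + ((n - 8) / 3) * √48

def Ex (n n2 n3 n4 z : ℕ) : Prop :=
  if n = 3 then True else if n = 4 then 1 ≤ n3 else if n = 5 then 1 ≤ n4
  else if n = 6 then 1 ≤ n3 ∧ 1 ≤ n4 else n2 + n3 ≤ 1 ∧ (n = 8 ∨ z = 0)

lemma sb (x : ℕ) (a : ℝ) (h0 : 0 ≤ a) (h1 : a ^ 2 ≤ x) (h2 : (x : ℝ) ≤ (a + 1 / 10000) ^ 2) :
    a ≤ √x ∧ √x ≤ a + 1 / 10000 :=
  ⟨le_sqrt_of_sq_le h1, sqrt_le_iff.2 ⟨by positivity, h2⟩⟩

lemma lin (n a b c d e f g h k : ℝ) (n1 n2 n3 n4 : ℝ) (r1 : a + b + c = n1)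
    (r2 : a + d + e + f = 2 * n2) (r3 : b + e + g + h = 3 * n3) (r4 : c + f + h + k = 4 * n4)
    (s1 : n1 + n2 + n3 + n4 = n) (s2 : n1 + 2 * n2 + 3 * n3 + 4 * n4 = 2 * n)
    (ha : 0 ≤ a) (hb : 0 ≤ b) (hd : 0 ≤ d) (he : 0 ≤ e) (hf : 0 ≤ f) (hg : 0 ≤ g) (hh : 0 ≤ h) :
    (2 * a * √7 + 2 * b * √13 + 2 * c * √21 + d * √12 + 2 * e * √19 + 2 * f * √28 + g * √27
      + 2 * h * √37 + k * √48) / 2 ≤ (2 * n / 3) * √21 + (n / 3) * √48
      - (1150 * a + 710 * b + 945 * d + 1520 * e + 850 * f + 600 * g + 580 * h) / 1000 := by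
  have q7 := sb 7 2.6457 (by norm_num) (by norm_num) (by norm_num)
  have q12 := sb 12 3.4641 (by norm_num) (by norm_num) (by norm_num)
  have q13 := sb 13 3.6055 (by norm_num) (by norm_num) (by norm_num)
  have q19 := sb 19 4.3588 (by norm_num) (by norm_num) (by norm_num)
  have q21 := sb 21 4.5825 (by norm_num) (by norm_num) (by norm_num)
  have q27 := sb 27 5.1961 (by norm_num) (by norm_num) (by norm_num)
  have q28 := sb 28 5.2915 (by norm_num) (by norm_num) (by norm_num)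
  have q37 := sb 37 6.0827 (by norm_num) (by norm_num) (by norm_num)
  have q48 := sb 48 6.9282 (by norm_num) (by norm_num) (by norm_num)
  push_cast at *
  have ec : c = 2 * n / 3 - 4 / 3 * a - 10 / 9 * b - d / 3 - 4 / 9 * e - f / 3 - g / 9 - h / 9 := by
    linarith
  have ek : k = 2 * n / 3 + 2 / 3 * a + 2 / 9 * b - d / 3 - 10 / 9 * e - 4 / 3 * f - 7 / 9 * g
      - 16 / 9 * h := by linarith
  have ta := mul_nonneg ha (show 0 ≤ 4 / 3 * √21 - 1 / 3 * √48 - √7 - 1.15 by linarith)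
  have tb := mul_nonneg hb (show 0 ≤ 10 / 9 * √21 - 1 / 9 * √48 - √13 - 0.71 by linarith)
  have td := mul_nonneg hd (show 0 ≤ 1 / 3 * √21 + 1 / 6 * √48 - √12 / 2 - 0.945 by linarith)
  have te := mul_nonneg he (show 0 ≤ 4 / 9 * √21 + 5 / 9 * √48 - √19 - 1.52 by linarith)
  have tf := mul_nonneg hf (show 0 ≤ 1 / 3 * √21 + 2 / 3 * √48 - √28 - 0.85 by linarith)
  have tg := mul_nonneg hg (show 0 ≤ 1 / 9 * √21 + 7 / 18 * √48 - √27 / 2 - 0.6 by linarith)
  have th := mul_nonneg hh (show 0 ≤ 1 / 9 * √21 + 8 / 9 * √48 - √37 - 0.58 by linarith)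
  rw [ec, ek]
  linarith

lemma gap (n : ℕ) : (2 * n / 3) * √21 + (n / 3) * √48 - Mx n <
    ((if n = 3 then 5710 else if n = 4 then 5680 else if n = 5 then 3620 else if n = 6 then 3690
      else if n = 8 then 1895 else if n % 3 = 0 then 1 else if n % 3 = 1 then 1715 else 1760 : ℕ)
      : ℝ) / 1000 := by
  have q12 := sb 12 3.4641 (by norm_num) (by norm_num) (by norm_num)
  have q13 := sb 13 3.6055 (by norm_num) (by norm_num) (by norm_num)
  have q19 := sb 19 4.3588 (by norm_num) (by norm_num) (by norm_num)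
  have q21 := sb 21 4.5825 (by norm_num) (by norm_num) (by norm_num)
  have q28 := sb 28 5.2915 (by norm_num) (by norm_num) (by norm_num)
  have q37 := sb 37 6.0827 (by norm_num) (by norm_num) (by norm_num)
  have q48 := sb 48 6.9282 (by norm_num) (by norm_num) (by norm_num)
  push_cast at *
  unfold Mx
  split_ifs with h3 h4 h5 h6 h8 <;> (try subst_vars) <;> push_cast <;> linarith

theorem arith (n a b c d e f g h k n1 n2 n3 n4 : ℕ) (hn : 3 ≤ n) (r1 : a + b + c = n1)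
    (r2 : a + d + e + f = 2 * n2) (r3 : b + e + g + h = 3 * n3) (r4 : c + f + h + k = 4 * n4)
    (s1 : n1 + n2 + n3 + n4 = n) (s2 : n1 + 2 * n2 + 3 * n3 + 4 * n4 = 2 * n)
    (pd : d ≤ n2 * n2 - n2) (pe : e ≤ n2 * n3) (pf : f ≤ n2 * n4) (pg : g ≤ n3 * n3 - n3)
    (ph : h ≤ n3 * n4) (pk : k ≤ n4 * n4 - n4) (E : ℝ)
    (hE : E = (2 * a * √7 + 2 * b * √13 + 2 * c * √21 + d * √12 + 2 * e * √19 + 2 * f * √28
      + g * √27 + 2 * h * √37 + k * √48) / 2) :
    (Ex n n2 n3 n4 (a + b + d + e + g) → E = Mx n) ∧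
      (¬ Ex n n2 n3 n4 (a + b + d + e + g) → E < Mx n) := by
  have tri : (n2 = 0 ∧ n3 = 0 ∧ n = 3 * n4) ∨ (n2 = 1 ∧ n3 = 0 ∧ n = 3 * n4 + 1) ∨
      (n2 = 0 ∧ n3 = 1 ∧ n = 3 * n4 + 2) ∨ 2 ≤ n2 + n3 := by
    clear pd pe pf pg ph pk r1 r2 r3 r4
    omega
  constructor
  · intro hx
    unfold Ex at hx
    unfold Mx
    have b2 : n2 ≤ n := by omega
    have b3 : n3 ≤ n := by omega
    have b4 : n4 ≤ n := by omega
    split_ifs at hx ⊢ with h3 h4 h5 h6 h8 h0 h1
    · subst h3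
      obtain ⟨rfl, rfl, rfl, rfl, rfl, rfl, rfl, rfl, rfl⟩ : a = 0 ∧ b = 0 ∧ c = 0 ∧ d = 6 ∧ e = 0 ∧
          f = 0 ∧ g = 0 ∧ h = 0 ∧ k = 0 := by
        interval_cases n2 <;> interval_cases n3 <;> interval_cases n4 <;> omega
      rw [hE]; push_cast; ring
    · subst h4
      obtain ⟨rfl, rfl, rfl, rfl, rfl, rfl, rfl, rfl, rfl⟩ : a = 0 ∧ b = 1 ∧ c = 0 ∧ d = 2 ∧ e = 2 ∧
          f = 0 ∧ g = 0 ∧ h = 0 ∧ k = 0 := by
        interval_cases n2 <;> interval_cases n3 <;> interval_cases n4 <;> omega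
      rw [hE]; push_cast; ring
    · subst h5
      obtain ⟨rfl, rfl, rfl, rfl, rfl, rfl, rfl, rfl, rfl⟩ : a = 0 ∧ b = 0 ∧ c = 2 ∧ d = 2 ∧ e = 0 ∧
          f = 2 ∧ g = 0 ∧ h = 0 ∧ k = 0 := by
        interval_cases n2 <;> interval_cases n3 <;> interval_cases n4 <;> omega
      rw [hE]; push_cast; ring
    · subst h6
      obtain ⟨rfl, rfl, rfl, rfl, rfl, rfl, rfl, rfl, rfl⟩ : a = 0 ∧ b = 1 ∧ c = 2 ∧ d = 0 ∧ e = 1 ∧
          f = 1 ∧ g = 0 ∧ h = 1 ∧ k = 0 := by
        interval_cases n2 <;> interval_cases n3 <;> interval_cases n4 <;> omega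
      rw [hE]; push_cast; ring
    · subst h8
      obtain ⟨rfl, rfl, rfl⟩ : n2 = 0 ∧ n3 = 1 ∧ n4 = 2 := by omega
      obtain ⟨rfl, rfl, rfl, rfl, rfl, rfl, rfl, rfl, rfl⟩ : a = 0 ∧ b = 1 ∧ c = 4 ∧ d = 0 ∧ e = 0 ∧
          f = 0 ∧ g = 0 ∧ h = 2 ∧ k = 2 := by omega
      rw [hE]; push_cast; ring
    · clear pd pe pf pg ph pk
      obtain ⟨rfl, rfl⟩ : n2 = 0 ∧ n3 = 0 := by
        rcases tri with h | h | h | h <;> omega
      have hz : a + b + d + e + g = 0 := by omega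
      obtain ⟨rfl, rfl, rfl, rfl, rfl, rfl, rfl, e1, e2⟩ : a = 0 ∧ b = 0 ∧ d = 0 ∧ e = 0 ∧
          f = 0 ∧ g = 0 ∧ h = 0 ∧ 3 * c = 2 * n ∧ 3 * k = 2 * n := by omega
      have e1' : (c : ℝ) = 2 * n / 3 := by
        have : (3 * c : ℝ) = 2 * n := by exact_mod_cast e1
        linarith
      have e2' : (k : ℝ) = 2 * n / 3 := by
        have : (3 * k : ℝ) = 2 * n := by exact_mod_cast e2
        linarith
      rw [hE, e1', e2']; push_cast; ring
    · clear pd pe pf pg ph pk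
      obtain ⟨rfl, rfl⟩ : n2 = 1 ∧ n3 = 0 := by
        rcases tri with h | h | h | h <;> omega
      have hz : a + b + d + e + g = 0 := by omega
      obtain ⟨rfl, rfl, rfl, rfl, rfl, rfl, rfl, e1, e2⟩ : a = 0 ∧ b = 0 ∧ d = 0 ∧ e = 0 ∧
          f = 2 ∧ g = 0 ∧ h = 0 ∧ 3 * c + 2 = 2 * n ∧ 3 * k + 8 = 2 * n := by omega
      have e1' : (c : ℝ) = (2 * n - 2) / 3 := by
        have : (3 * c + 2 : ℝ) = 2 * n := by exact_mod_cast e1
        linarith
      have e2' : (k : ℝ) = (2 * n - 8) / 3 := by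
        have : (3 * k + 8 : ℝ) = 2 * n := by exact_mod_cast e2
        linarith
      rw [hE, e1', e2']; push_cast; ring
    · clear pd pe pf pg ph pk
      obtain ⟨rfl, rfl⟩ : n2 = 0 ∧ n3 = 1 := by
        rcases tri with h | h | h | h <;> omega
      have hz : a + b + d + e + g = 0 := by omega
      obtain ⟨rfl, rfl, rfl, rfl, rfl, rfl, rfl, e1, e2⟩ : a = 0 ∧ b = 0 ∧ d = 0 ∧ e = 0 ∧
          f = 0 ∧ g = 0 ∧ h = 3 ∧ 3 * c + 1 = 2 * n ∧ 3 * k + 16 = 2 * n := by omega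
      have e1' : (c : ℝ) = (2 * n - 1) / 3 := by
        have : (3 * c + 1 : ℝ) = 2 * n := by exact_mod_cast e1
        linarith
      have e2' : (k : ℝ) = (2 * n - 16) / 3 := by
        have : (3 * k + 16 : ℝ) = 2 * n := by exact_mod_cast e2
        linarith
      rw [hE, e1', e2']; push_cast; ring
  · intro hx
    have L := lin n a b c d e f g h k n1 n2 n3 n4 (by exact_mod_cast r1) (by exact_mod_cast r2)
      (by exact_mod_cast r3) (by exact_mod_cast r4) (by exact_mod_cast s1) (by exact_mod_cast s2)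
      (by positivity) (by positivity) (by positivity) (by positivity) (by positivity)
      (by positivity) (by positivity)
    have Gp := gap n
    have I : (if n = 3 then 5710 else if n = 4 then 5680 else if n = 5 then 3620 else
      if n = 6 then 3690 else if n = 8 then 1895 else if n % 3 = 0 then 1 else
      if n % 3 = 1 then 1715 else 1760 : ℕ) ≤
        1150 * a + 710 * b + 945 * d + 1520 * e + 850 * f + 600 * g + 580 * h := by
      unfold Ex at hx
      have b2 : n2 ≤ n := by omega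
      have b3 : n3 ≤ n := by omega
      have b4 : n4 ≤ n := by omega
      split_ifs at hx ⊢ with h3 h4 h5 h6 h8 h0 h1
      · exact absurd trivial hx
      · subst h4
        interval_cases n2 <;> interval_cases n3 <;> interval_cases n4 <;> omega
      · subst h5
        interval_cases n2 <;> interval_cases n3 <;> interval_cases n4 <;> omega
      · subst h6
        interval_cases n2 <;> interval_cases n3 <;> interval_cases n4 <;> omega
      · clear pd pe pf pg ph pk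
        rcases tri with h | h | h | h <;> omega
      · clear pd pe pf pg ph pk
        rcases tri with h | h | h | h <;> omega
      · have : n2 = 1 → d = 0 := by rintro rfl; omega
        clear pd pe pf pg ph pk
        rcases tri with h | h | h | h <;> omega
      · have : n3 = 1 → g = 0 := by rintro rfl; omega
        clear pd pe pf pg ph pk
        rcases tri with h | h | h | h <;> omega
    have I' : ((if n = 3 then 5710 else if n = 4 then 5680 else if n = 5 then 3620 else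
      if n = 6 then 3690 else if n = 8 then 1895 else if n % 3 = 0 then 1 else
      if n % 3 = 1 then 1715 else 1760 : ℕ) : ℝ) ≤
        1150 * a + 710 * b + 945 * d + 1520 * e + 850 * f + 600 * g + 580 * h := by
      exact_mod_cast I
    rw [hE]
    linarith

end Pool.Agent.H.MP_b3e27a_co
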