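import Mathlib

set_option autoImplicit false

namespace Pool.Agent.H.MP_b3e27a_co

open Finset

variable {V : Type} [Fintype V] [DecidableEq V] (G : SimpleGraph V) [DecidableRel G.Adj]

def N (i : ℕ) : ℕ := (univ.filter fun v => G.degree v = i).card

def m (i j : ℕ) : ℕ :=
  ((univ ×ˢ univ).filter fun p : V × V => G.Adj p.1 p.2 ∧ G.degree p.1 = i ∧ G.degree p.2 = j).card

lemma m_symm (i j : ℕ) : m G i j = m G j i := by
  unfold m
  refine card_bij' (fun p _ => p.swap) (fun p _ => p.swap) ?_ ?_ (by simp) (by simp) <;>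
  · intro p hp
    simp only [mem_filter, mem_product, mem_univ, true_and, Prod.fst_swap, Prod.snd_swap] at hp ⊢
    exact ⟨hp.1.symm, hp.2.2, hp.2.1⟩

lemma m_eq (i j : ℕ) : m G i j =
    ∑ u, ∑ v ∈ G.neighborFinset u, if G.degree u = i ∧ G.degree v = j then 1 else 0 := by
  rw [m, card_filter, sum_product]
  refine sum_congr rfl fun u _ => ?_
  rw [SimpleGraph.neighborFinset_eq_filter, sum_filter]
  refine sum_congr rfl fun v _ => ?_
  by_cases h : G.Adj u v <;> simp [h]

lemma sum_split {R : Type} [CommSemiring R] (h : ∀ v, 1 ≤ G.degree v ∧ G.degree v ≤ 4)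
    (f : ℕ → ℕ → R) :
    ∑ u, ∑ v ∈ G.neighborFinset u, f (G.degree u) (G.degree v) =
      ∑ i ∈ Icc 1 4, ∑ j ∈ Icc 1 4, (m G i j : R) * f i j := by
  have : ∀ u v, f (G.degree u) (G.degree v) = ∑ i ∈ Icc 1 4, ∑ j ∈ Icc 1 4,
      ((if G.degree u = i ∧ G.degree v = j then 1 else 0 : ℕ) : R) * f i j := by
    intro u v
    rw [sum_eq_single (G.degree u), sum_eq_single (G.degree v)]
    · simp
    · intro b _ hb; simp [hb.symm]
    · intro hb; exact absurd (mem_Icc.2 (h v)) hb
    · intro b _ hb; simp [hb.symm]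
    · intro hb; exact absurd (mem_Icc.2 (h u)) hb
  simp only [m_eq, Nat.cast_sum, sum_mul]
  conv_lhs => simp only [this]
  simp only [sum_comm (s := Icc 1 4) (t := univ)]
  refine sum_congr rfl fun u _ => ?_
  simp only [sum_comm (s := Icc 1 4) (t := G.neighborFinset u)]

lemma row (h : ∀ v, 1 ≤ G.degree v ∧ G.degree v ≤ 4) (i : ℕ) (hi : i ∈ Icc 1 4) :
    m G i 1 + m G i 2 + m G i 3 + m G i 4 = i * N G i := by
  have e := sum_split G h (fun a _ => if a = i then (1 : ℕ) else 0)
  have l : ∑ u, ∑ _v ∈ G.neighborFinset u, (if G.degree u = i then (1 : ℕ) else 0) = i * N G i := by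
    rw [N, card_filter, mul_sum]
    refine sum_congr rfl fun u _ => ?_
    rw [sum_const, SimpleGraph.card_neighborFinset_eq_degree]
    split_ifs with hu <;> simp [hu]
  rw [l, sum_eq_single i (fun b _ hb => by simp [hb]) (fun hb => absurd hi hb)] at e
  rw [e, show Icc 1 4 = {1, 2, 3, 4} by decide]
  simp [add_assoc]

lemma vsum (h : ∀ v, 1 ≤ G.degree v ∧ G.degree v ≤ 4) (f : ℕ → ℕ) :
    ∑ v, f (G.degree v) = N G 1 * f 1 + N G 2 * f 2 + N G 3 * f 3 + N G 4 * f 4 := by
  simp only [N, card_filter, sum_mul, ← sum_add_distrib]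
  refine sum_congr rfl fun v _ => ?_
  obtain ⟨h1, h2⟩ := h v
  interval_cases G.degree v <;> simp

lemma m_le (i j : ℕ) : m G i j ≤ N G i * N G j := by
  rw [m, N, N, ← card_product]
  refine card_le_card fun p hp => ?_
  simp only [mem_filter, mem_product, mem_univ, true_and] at hp ⊢
  exact hp.2

lemma m_le' (i : ℕ) : m G i i ≤ N G i * N G i - N G i := by
  rw [m, N, ← offDiag_card]
  refine card_le_card fun p hp => ?_
  simp only [mem_filter, mem_product, mem_univ, true_and, mem_offDiag] at hp ⊢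
  exact ⟨hp.2.1, hp.2.2, hp.1.ne⟩

lemma m_zero_iff (i j : ℕ) :
    m G i j = 0 ↔ ∀ u v, G.Adj u v → G.degree u = i → G.degree v ≠ j := by
  simp [m, filter_eq_empty_iff]

lemma m11 (hc : G.Connected) (hn : 3 ≤ Fintype.card V) : m G 1 1 = 0 := by
  rw [m_zero_iff]
  intro u v huv hu hv
  have key : ∀ a b, G.Adj a b → G.degree a = 1 → ∀ c, G.Adj a c → c = b := by
    intro a b hab ha c hc
    exact card_le_one.1 (by rw [SimpleGraph.card_neighborFinset_eq_degree]; omega) c
      ((G.mem_neighborFinset a c).2 hc) b ((G.mem_neighborFinset a b).2 hab)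
  have all : ∀ w, w = u ∨ w = v := by
    intro w
    have hr := (G.reachable_iff_reflTransGen u w).1 (hc u w)
    induction hr with
    | refl => exact Or.inl rfl
    | tail _ h2 ih =>
      rcases ih with rfl | rfl
      · exact Or.inr (key _ _ huv hu _ h2)
      · exact Or.inl (key _ _ huv.symm hv _ h2)
  have : (univ : Finset V) ⊆ {u, v} := fun w _ => by simpa using all w
  have h2 := (card_le_card this).trans card_le_two
  rw [card_univ] at h2
  omega

lemma deg_pos (hc : G.Connected) (hn : 3 ≤ Fintype.card V) (v : V) : 1 ≤ G.degree v := by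
  haveI : Nontrivial V := Fintype.one_lt_card_iff_nontrivial.1 (by omega)
  exact hc.preconnected.degree_pos_of_nontrivial v

lemma N_pos (i : ℕ) : (∃ v, G.degree v = i) ↔ 1 ≤ N G i := by
  rw [N, Nat.succ_le_iff, card_pos, filter_nonempty_iff]; simp

lemma N23 : (∀ u v, (G.degree u = 2 ∨ G.degree u = 3) → (G.degree v = 2 ∨ G.degree v = 3) → u = v)
    ↔ N G 2 + N G 3 ≤ 1 := by
  have : N G 2 + N G 3 = (univ.filter fun v => G.degree v = 2 ∨ G.degree v = 3).card := by
    rw [filter_or, card_union_of_disjoint, N, N]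
    rw [disjoint_filter]; intro x _ h; omega
  rw [this, card_le_one]
  simp only [mem_filter, mem_univ, true_and]
  exact ⟨fun h a ha b hb => h a b ha hb, fun h a b ha hb => h a ha b hb⟩

lemma nb4 (h : ∀ v, 1 ≤ G.degree v ∧ G.degree v ≤ 4) :
    (∀ u v, G.Adj u v → (G.degree u = 2 ∨ G.degree u = 3) → G.degree v = 4) ↔
      m G 1 2 + m G 1 3 + m G 2 2 + m G 2 3 + m G 3 3 = 0 := by
  simp only [Nat.add_eq_zero_iff, m_zero_iff]
  constructor
  · intro H
    refine ⟨⟨⟨⟨?_, ?_⟩, ?_⟩, ?_⟩, ?_⟩ <;> intro u v a hu hv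
    · have := H v u a.symm (by omega); omega
    · have := H v u a.symm (by omega); omega
    · have := H u v a (by omega); omega
    · have := H u v a (by omega); omega
    · have := H u v a (by omega); omega
  · rintro ⟨⟨⟨⟨h1, h2⟩, h3⟩, h4⟩, h5⟩ u v a hu
    have := h1 v u a.symm
    have := h2 v u a.symm
    have := h3 u v a
    have := h4 u v a
    have := h4 v u a.symm
    have := h5 u v a
    have := h v
    omega

end Pool.Agent.H.MP_b3e27a_co
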