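import Mathlib

set_option autoImplicit false

namespace Pool.Agent.H.MP_b3e27a_co

open Finset

def par (t j : ℕ) : ℕ :=
  if j = 0 then 1 else if j = 1 then 2 else if j < 3 + t then 0 else if j < 5 + t then 1
  else if j < 7 + t then 2 else (j + 2 - t) / 3

lemma par_lt (t j : ℕ) (ht : t ≤ 2) (hj : 2 ≤ j) : par t j < j := by
  unfold par; split_ifs <;> omega

lemma par_ne (t j : ℕ) (ht : t ≤ 2) : par t j ≠ j := by
  unfold par; split_ifs <;> omega

lemma par_par (t j : ℕ) (ht : t ≤ 2) : par t (par t j) ≠ j := by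
  by_cases h0 : j = 0
  · subst h0; simp [par]
  by_cases h1 : j = 1
  · subst h1
    have : par t 2 = 0 := by unfold par; split_ifs <;> omega
    rw [show par t 1 = 2 from rfl, this]; omega
  have a := par_lt t j ht (by omega)
  by_cases h2 : 2 ≤ par t j
  · have := par_lt t _ ht h2; omega
  · have : par t j = 0 ∨ par t j = 1 := by omega
    rcases this with h | h
    · rw [h]; simp [par]; omega
    · intro h'
      rw [h] at h'
      have : j = 2 := by rw [← h']; simp [par]
      subst this
      unfold par at h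
      split_ifs at h <;> omega

def pf (n t : ℕ) (hn : 3 ≤ n) (ht : t ≤ 2) (j : Fin n) : Fin n :=
  ⟨par t j, by
    by_cases h : 2 ≤ j.1
    · exact (par_lt t j ht h).trans j.2
    · unfold par; split_ifs <;> omega⟩

def Gr (n t : ℕ) (hn : 3 ≤ n) (ht : t ≤ 2) : SimpleGraph (Fin n) :=
  SimpleGraph.fromRel fun i j => pf n t hn ht i = j

variable (n t : ℕ) (hn : 3 ≤ n) (ht : t ≤ 2)

lemma adj_iff (i j : Fin n) : (Gr n t hn ht).Adj i j ↔ par t i = j ∨ par t j = i := by
  simp only [Gr, SimpleGraph.fromRel_adj, pf, Fin.ext_iff, ne_eq]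
  refine ⟨fun h => h.2, fun h => ⟨fun e => ?_, h⟩⟩
  rw [e] at h
  exact par_ne t j ht (by tauto)

lemma conn : (Gr n t hn ht).Connected := by
  have key : ∀ k (hk : k < n), (Gr n t hn ht).Reachable ⟨k, hk⟩ ⟨0, by omega⟩ := by
    intro k
    induction k using Nat.strong_induction_on with
    | _ k ih =>
      intro hk
      by_cases h0 : k = 0
      · subst h0; rfl
      by_cases h1 : k = 1
      · subst h1
        exact SimpleGraph.Adj.reachable ((adj_iff n t hn ht _ _).2 (Or.inr (by simp [par])))
      have a := par_lt t k ht (by omega)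
      exact (SimpleGraph.Adj.reachable ((adj_iff n t hn ht ⟨k, hk⟩ ⟨par t k, a.trans hk⟩).2
        (Or.inl rfl))).trans (ih _ a _)
  haveI : Nonempty (Fin n) := ⟨⟨0, by omega⟩⟩
  exact ⟨fun u v => (key u u.2).trans (key v v.2).symm⟩

lemma edges [Fintype (Gr n t hn ht).edgeSet] : (Gr n t hn ht).edgeFinset.card = n := by
  have : (Gr n t hn ht).edgeFinset = univ.image fun i => s(i, pf n t hn ht i) := by
    ext e
    induction e using Sym2.ind with
    | _ i j =>
      simp only [SimpleGraph.mem_edgeFinset, SimpleGraph.mem_edgeSet, adj_iff, mem_image,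
        mem_univ, true_and, Sym2.eq_iff]
      constructor
      · rintro (h | h)
        · exact ⟨i, Or.inl ⟨rfl, Fin.ext h⟩⟩
        · exact ⟨j, Or.inr ⟨rfl, Fin.ext h⟩⟩
      · rintro ⟨a, ⟨rfl, rfl⟩ | ⟨rfl, rfl⟩⟩
        · exact Or.inl rfl
        · exact Or.inr rfl
  rw [this, card_image_of_injective, card_univ, Fintype.card_fin]
  intro i j h
  rcases Sym2.eq_iff.1 h with h | h
  · exact h.1
  · exfalso
    have h1 : par t j = i := congrArg Fin.val h.1.symm
    have h2 : par t i = j := congrArg Fin.val h.2
    exact par_par t i ht (by rw [h2, h1])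

def dg (n t i : ℕ) : ℕ :=
  if i = 0 then 2 + (min n (3 + t) - 3) else if i = 1 then 2 + (min n (5 + t) - (3 + t))
  else if i = 2 then 2 + (min n (7 + t) - (5 + t)) else 1 + (min n (3 * i + t + 1) - (3 * i + t - 2))

lemma deg (i : Fin n) [Fintype ((Gr n t hn ht).neighborSet i)] :
    (Gr n t hn ht).degree i = dg n t i := by
  rw [← SimpleGraph.card_neighborFinset_eq_degree, ← card_map Fin.valEmbedding]
  have hm : ∀ x, x ∈ ((Gr n t hn ht).neighborFinset i).map Fin.valEmbedding ↔
      x < n ∧ (par t i = x ∨ par t x = i) := by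
    intro x
    simp only [mem_map, SimpleGraph.mem_neighborFinset, adj_iff, Fin.valEmbedding_apply]
    exact ⟨by rintro ⟨a, h, rfl⟩; exact ⟨a.2, h⟩, fun h => ⟨⟨x, h.1⟩, h.2, rfl⟩⟩
  have hi := i.2
  generalize ((Gr n t hn ht).neighborFinset i).map Fin.valEmbedding = S at hm
  generalize i.1 = k at hm hi
  unfold dg
  split_ifs with h0 h1 h2
  · have : S = insert 1 (insert 2 (Ico 3 (min n (3 + t)))) := by
      ext x; rw [hm]; simp only [mem_insert, mem_Ico, par]; split_ifs <;> omega
    rw [this, card_insert_of_notMem (by simp), card_insert_of_notMem (by simp), Nat.card_Ico]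
    omega
  · have : S = insert 0 (insert 2 (Ico (3 + t) (min n (5 + t)))) := by
      ext x; rw [hm]; simp only [mem_insert, mem_Ico, par]; split_ifs <;> omega
    rw [this, card_insert_of_notMem (by simp), card_insert_of_notMem (by simp; omega),
      Nat.card_Ico]
    omega
  · have : S = insert 0 (insert 1 (Ico (5 + t) (min n (7 + t)))) := by
      ext x; rw [hm]; simp only [mem_insert, mem_Ico, par]; split_ifs <;> omega
    rw [this, card_insert_of_notMem (by simp), card_insert_of_notMem (by simp; omega),
      Nat.card_Ico]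
    omega
  · have a := par_lt t k ht (by omega)
    have : S = insert (par t k) (Ico (3 * k + t - 2) (min n (3 * k + t + 1))) := by
      ext x; rw [hm]; simp only [mem_insert, mem_Ico]
      generalize par t k = y at a
      unfold par; split_ifs <;> omega
    rw [this, card_insert_of_notMem (by simp; omega), Nat.card_Ico]
    omega

end Pool.Agent.H.MP_b3e27a_co
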